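import Pool.Agent.W345.VO.Stm

/-! Project VO: commutators of the Heisenberg operators with the vertex operators. -/

set_option autoImplicit false

namespace Pool.Agent.W451.VO

open MvPolynomial Pool.Agent.W345.VO

/-- the recursion without denominators -/
lemma rec_ss (ε : ℂ) (J : ℕ) :
    C ε * ∑ i ∈ Finset.range J, X i * ss ε (J - 1 - i) = C (J : ℂ) * ss ε J := by
  cases J with
  | zero => simp
  | succ j =>
    rw [ss_succ, ← mul_assoc, ← C_mul]
    have h : ((j + 1 : ℕ) : ℂ) * (ε / ((j : ℂ) + 1)) = ε := by
      have h1 : ((j : ℂ) + 1) ≠ 0 := by exact_mod_cast Nat.succ_ne_zero j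
      push_cast
      field_simp
    rw [h]
    rfl

lemma pderiv_ss (ε : ℂ) (l : ℕ) : ∀ j : ℕ, pderiv l (ss ε j) =
    if l + 1 ≤ j then C (ε / ((l : ℂ) + 1)) * ss ε (j - (l + 1)) else 0 := by
  intro j
  induction j using Nat.strong_induction_on with
  | _ j ih =>
    cases j with
    | zero =>
      rw [ss_zero, if_neg (by omega)]
      exact Derivation.map_one_eq_zero _
    | succ j =>
      rw [ss_succ, pderiv_C_mul, map_sum]
      have h1 : ∀ i ∈ Finset.range (j + 1), pderiv l (X i * ss ε (j - i)) =
          (if i = l then ss ε (j - l) else 0) +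
          (if i + l + 1 ≤ j then C (ε / ((l : ℂ) + 1)) * (X i * ss ε (j - l - 1 - i)) else 0) := by
        intro i hi
        rw [Finset.mem_range] at hi
        rw [Derivation.leibniz, ih (j - i) (by omega), smul_eq_mul, smul_eq_mul, add_comm]
        congr 1
        · by_cases hil : i = l
          · subst hil
            rw [if_pos rfl, pderiv_X_self, mul_one]
          · rw [if_neg hil, pderiv_X_of_ne hil, mul_zero]
        · by_cases hc : l + 1 ≤ j - i
          · rw [if_pos hc, if_pos (by omega)]
            have : j - i - (l + 1) = j - l - 1 - i := by omega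
            rw [this]
            ring
          · rw [if_neg hc, if_neg (by omega), mul_zero]
      rw [Finset.sum_congr rfl h1, Finset.sum_add_distrib]
      by_cases hlj : l ≤ j
      · rw [if_pos (by omega)]
        have h2 : ∑ i ∈ Finset.range (j + 1), (if i = l then ss ε (j - l) else 0) = ss ε (j - l) := by
          rw [Finset.sum_ite_eq']
          rw [if_pos (Finset.mem_range.mpr (by omega))]
        have h3 : ∑ i ∈ Finset.range (j + 1),
            (if i + l + 1 ≤ j then C (ε / ((l : ℂ) + 1)) * (X i * ss ε (j - l - 1 - i)) else 0) =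
            C (1 / ((l : ℂ) + 1)) * (C ε * ∑ i ∈ Finset.range (j - l), X i * ss ε (j - l - 1 - i)) := by
          rw [← Finset.sum_filter]
          have h4 : (Finset.range (j + 1)).filter (fun i => i + l + 1 ≤ j) = Finset.range (j - l) := by
            ext i
            rw [Finset.mem_filter, Finset.mem_range, Finset.mem_range]
            omega
          rw [h4, ← Finset.mul_sum, ← mul_assoc, ← C_mul]
          congr 2
          ring
        rw [h2, h3, rec_ss]
        have h5 : j + 1 - (l + 1) = j - l := by omega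
        rw [h5]
        have h6 : ((j : ℂ) + 1) ≠ 0 := by exact_mod_cast Nat.succ_ne_zero j
        have h7 : ((l : ℂ) + 1) ≠ 0 := by exact_mod_cast Nat.succ_ne_zero l
        have h8 : ((j - l : ℕ) : ℂ) = (j : ℂ) - l := by
          push_cast [Nat.cast_sub hlj]
          rfl
        have h9 : ε / ((l : ℂ) + 1) = ε / ((j : ℂ) + 1) * (1 + 1 / ((l : ℂ) + 1) *
            ((j - l : ℕ) : ℂ)) := by
          rw [h8]
          field_simp
          ring
        rw [h9, C_mul, C_add, C_mul, C_1]
        ring
      · rw [if_neg (by omega)]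
        have h2 : ∑ i ∈ Finset.range (j + 1), (if i = l then ss ε (j - l) else 0) = 0 := by
          refine Finset.sum_eq_zero (fun i hi => ?_)
          rw [Finset.mem_range] at hi
          rw [if_neg (by omega)]
        have h3 : ∑ i ∈ Finset.range (j + 1),
            (if i + l + 1 ≤ j then C (ε / ((l : ℂ) + 1)) * (X i * ss ε (j - l - 1 - i)) else 0) =
            (0 : PP) := by
          refine Finset.sum_eq_zero (fun i hi => ?_)
          rw [if_neg (by omega)]
        rw [h2, h3, add_zero, mul_zero]

lemma pderiv_sz (ε : ℂ) (l : ℕ) (j : ℤ) :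
    pderiv l (sz ε j) = C (ε / ((l : ℂ) + 1)) * sz ε (j - l - 1) := by
  unfold sz
  by_cases hj : 0 ≤ j
  · rw [if_pos hj, pderiv_ss]
    by_cases h : l + 1 ≤ j.toNat
    · rw [if_pos h, if_pos (by omega)]
      congr 2
      omega
    · rw [if_neg h, if_neg (by omega), mul_zero]
  · rw [if_neg hj, if_neg (by omega), mul_zero, map_zero]

lemma phi_C_mul (ε : ℂ) (M : ℤ) (c : PP) (q : Polynomial PP) :
    phi ε M (q * Polynomial.C c) = c * phi ε M q := by
  induction q using Polynomial.induction_on' with
  | add p q hp hq => rw [add_mul, map_add, map_add, hp, hq, mul_add]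
  | monomial d a =>
    rw [Polynomial.monomial_mul_C, phi_monomial, phi_monomial]
    ring

lemma phi_mul_X (ε : ℂ) (M : ℤ) (i : ℕ) (q : Polynomial PP) :
    phi ε M (q * Polynomial.X ^ i) = phi ε (M + i) q := by
  induction q using Polynomial.induction_on' with
  | add p q hp hq => rw [add_mul, map_add, map_add, hp, hq]
  | monomial d a =>
    rw [Polynomial.monomial_mul_X_pow, phi_monomial, phi_monomial]
    congr 2
    push_cast
    ring

lemma phi_tau_mul_X (ε : ℂ) (M : ℤ) (i : ℕ) (p : PP) :
    phi ε M (tau ε (p * X i)) = X i * phi ε M (tau ε p) -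
      C (2 * ε) * phi ε (M + ((i + 1 : ℕ) : ℤ)) (tau ε p) := by
  have h1 : tau ε (X i) = Polynomial.C (X i) -
      Polynomial.C (C (2 * ε)) * Polynomial.X ^ (i + 1) := by
    unfold tau
    rw [aeval_X]
  have h2 : tau ε p * (Polynomial.C (C (2 * ε)) * Polynomial.X ^ (i + 1)) =
      (tau ε p * Polynomial.X ^ (i + 1)) * Polynomial.C (C (2 * ε)) := by ring
  rw [map_mul, h1, mul_sub, map_sub, phi_C_mul, h2, phi_C_mul, phi_mul_X]

lemma pderiv_phi (ε : ℂ) (l : ℕ) (p : PP) : ∀ M : ℤ,
    pderiv l (phi ε M (tau ε p)) = phi ε M (tau ε (pderiv l p)) +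
      C (ε / ((l : ℂ) + 1)) * phi ε (M - l - 1) (tau ε p) := by
  induction p using MvPolynomial.induction_on with
  | C a =>
    intro M
    have h1 : ∀ M : ℤ, phi ε M (tau ε (C a)) = C a * sz ε M := by
      intro M
      have h2 : tau ε (C a) = Polynomial.monomial 0 (C a) := by
        unfold tau
        rw [aeval_C]
        rfl
      rw [h2, phi_monomial]
      simp
    rw [h1, h1, pderiv_C, map_zero, map_zero, zero_add, pderiv_C_mul, pderiv_sz]
    ring
  | add p q hp hq =>
    intro M
    rw [map_add, map_add, map_add, hp, hq, map_add, map_add, map_add, map_add]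
    ring
  | mul_X p i hp =>
    intro M
    rw [phi_tau_mul_X, map_sub, pderiv_C_mul, Derivation.leibniz, hp, hp, phi_tau_mul_X,
      Derivation.leibniz (pderiv l) p (X i), map_add, map_add]
    simp only [smul_eq_mul]
    have e1 : X i * pderiv l p = pderiv l p * X i := mul_comm _ _
    rw [e1, phi_tau_mul_X]
    have e2 : phi ε M (tau ε (p * pderiv l (X i))) = phi ε M (tau ε p) * pderiv l (X i) := by
      by_cases hil : i = l
      · subst hil
        rw [pderiv_X_self, mul_one, mul_one]
      · rw [pderiv_X_of_ne hil, mul_zero, mul_zero, map_zero, map_zero]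
    rw [e2]
    have e3 : M + ((i + 1 : ℕ) : ℤ) - l - 1 = M - l - 1 + ((i + 1 : ℕ) : ℤ) := by ring
    rw [e3]
    ring

theorem he : S_HE := by
  intro ε _ m n v
  have key : (hOp m) ∘ₗ (EE ε n) - (EE ε n) ∘ₗ (hOp m) = (2 * (ε : ℂ)) • EE ε (m + n) := by
    refine ext_single (fun k p => ?_)
    simp only [LinearMap.sub_apply, LinearMap.comp_apply, LinearMap.smul_apply]
    have hM : ∀ l : ℤ, -(l + n) - 1 - 2 * ε * k = (-n - 1 - 2 * ε * k) - l := fun l => by ring
    rw [EE_single, EE_single, hM]
    set M : ℤ := -n - 1 - 2 * ε * k with hMdef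
    rcases lt_trichotomy m 0 with hm | hm | hm
    · obtain ⟨l, rfl⟩ : ∃ l : ℕ, m = -(l : ℤ) - 1 := ⟨(-m - 1).toNat, by omega⟩
      rw [hOp_neg, hOp_neg, EE_single, ← Finsupp.single_sub, Finsupp.smul_single]
      congr 1
      have h1 : X l * p = p * X l := mul_comm _ _
      rw [h1, phi_tau_mul_X, sub_sub_cancel, smul_eq_C_mul]
      have h2 : M + ((l + 1 : ℕ) : ℤ) = M - (-(l : ℤ) - 1) := by
        push_cast
        ring
      rw [h2]
    · subst hm
      rw [hOp_zero, hOp_zero, EE_single, ← Finsupp.single_sub, Finsupp.smul_single, sub_zero]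
      congr 1
      rw [map_smul, map_smul, ← sub_smul]
      congr 1
      push_cast
      ring
    · obtain ⟨l, rfl⟩ : ∃ l : ℕ, m = (l : ℤ) + 1 := ⟨(m - 1).toNat, by omega⟩
      rw [hOp_pos, hOp_pos, EE_single, ← Finsupp.single_sub, Finsupp.smul_single]
      congr 1
      rw [map_smul, map_smul, ← smul_sub, pderiv_phi, add_sub_cancel_left]
      have h2 : M - ((l : ℤ) + 1) = M - l - 1 := by ring
      rw [h2, ← smul_eq_C_mul, smul_smul]
      congr 1
      have h7 : ((l : ℂ) + 1) ≠ 0 := by exact_mod_cast Nat.succ_ne_zero l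
      field_simp
  have := LinearMap.congr_fun key v
  simpa using this

end Pool.Agent.W451.VO
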